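import Pool.Agent.P8H30.LG.Diaz2

/-!
# The conjecture of Diaz in bounded degree for the lattices of Legendre curves

Let `c ≥ 1` be an integer and `λ = c / t` for integers `t > c`. The lattice `L_t` with the rational invariants
`g₂ = (4/3) (1 - λ + λ²)`, `g₃ = (4/27) (1 + λ) (2 - λ) (1 - 2 λ)` has the periods `ω = 2 a K(λ) + 2 b i K(1 - λ)`, `a, b ∈ ℤ`, with the
quasi-periods `η = 2 a (E(λ) - ((2 - λ)/3) K(λ)) - 2 b i (E(1 - λ) - ((1 + λ)/3) K(1 - λ))`, where `K`, `E` are the complete elliptic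
integrals of the first and second kind, as functions of the parameter `λ = k²`.

**Theorem.** There is `G` such that for all `k`, `r`, `δ`, `D` there are `κ > 0` and `M₀` such that for `M ≥ M₀` and all complex
numbers `w_1, …, w_r` every set `T` of integers of `[M, M + M^κ]` with distances at least `G` has a subset `S` with at most
`r + 4` elements such that for all distinct `t_1, …, t_k ∈ T \ S` and ALL nonzero periods `ω_l` of `L_(t_l)` (with the quasi-periods
`η_l`): every polynomial relation of degree at most `δ` in each number, over a number field of degree at most `D` which contains `i`,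
between the `w_i` and the `3 k` numbers `ω_l / √π`, `η_l / √π`, `log t_l` holds for all values of the `3 k` numbers.

For `k = 1`, `r = 0`: for all `t ∈ T` but at most `4` and all nonzero periods `ω` the numbers `ω / √π` and `η / √π` satisfy no nonzero
polynomial relation of degree at most `δ` over number fields of degree at most `D / 2`: the conjecture of Diaz in
bounded degree, no bound for the heights (such `L_t` have no complex multiplication if `δ ≥ 2`, `D ≥ 4`: with complex multiplication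
by `τ` the number `(ω / √π) (η / √π - κ ω / √π)` is in `ℚ(i, τ)` for some `κ ∈ ℚ(τ)`).

Proof. All relations between the periods `K(λ), K(1 - λ), E(λ), E(1 - λ)`, `log t` at several points and arbitrary constants (here
`w_i`, `√π`, `1/√π`) come from the Legendre relations (`Pool.Agent.P8H30.LG`, `Pool.Agent.P8H40.CY`, see
`MP_8da9ea_nt.LegendreCurves`); the pairs `(ω, η)` of the matrices with the determinant `-π/2` are all nonzero pairs.
-/

set_option autoImplicit false

open Module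

namespace Pool.Agent.Results.MP_e21d36_nt.LegendreLattices

/-- the complete elliptic integral of the first kind, `x = k²` -/
noncomputable def ellK (x : ℝ) : ℝ := ∫ θ in (0 : ℝ)..(Real.pi / 2), 1 / √(1 - x * Real.sin θ ^ 2)

/-- the complete elliptic integral of the second kind, `x = k²` -/
noncomputable def ellE (x : ℝ) : ℝ := ∫ θ in (0 : ℝ)..(Real.pi / 2), √(1 - x * Real.sin θ ^ 2)

/-- the period `2 a K(x) + 2 b i K(1 - x)` -/
noncomputable def omega (x : ℝ) (a b : ℤ) : ℂ :=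
  2 * a * ((ellK x : ℝ) : ℂ) + 2 * b * Complex.I * ((ellK (1 - x) : ℝ) : ℂ)

/-- its quasi-period `2 a (E(x) - ((2 - x)/3) K(x)) - 2 b i (E(1 - x) - ((1 + x)/3) K(1 - x))` -/
noncomputable def eta (x : ℝ) (a b : ℤ) : ℂ :=
  2 * a * ((ellE x - (2 - x) / 3 * ellK x : ℝ) : ℂ) -
    2 * b * Complex.I * ((ellE (1 - x) - (1 + x) / 3 * ellK (1 - x) : ℝ) : ℂ)

/-- the numbers `ω / √π`, `η / √π`, `log t` -/
noncomputable def numbers (c t : ℕ) (a b : ℤ) : Fin 3 → ℂ :=
  ![omega ((c : ℝ) / t) a b / ((√Real.pi : ℝ) : ℂ), eta ((c : ℝ) / t) a b / ((√Real.pi : ℝ) : ℂ), ((Real.log t : ℝ) : ℂ)]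

/-- `T` is a set of integers in the window `[M, M + M^κ]` with distances at least `G` -/
def Separated (G M : ℕ) (κ : ℝ) (T : Finset ℕ) : Prop :=
  (∀ t ∈ T, M ≤ t ∧ (t : ℝ) ≤ M + (M : ℝ) ^ κ) ∧ ∀ t ∈ T, ∀ t' ∈ T, t ≠ t' → (G : ℤ) ≤ |(t : ℤ) - t'|

theorem result (c : ℕ) (hc : 1 ≤ c) : ∃ G : ℕ, 1 ≤ G ∧ ∀ k r δ D : ℕ, ∃ (κ : ℝ) (M₀ : ℕ), 0 < κ ∧ c < M₀ ∧
    ∀ M : ℕ, M₀ ≤ M → ∀ (w : Fin r → ℂ) (T : Finset ℕ), Separated G M κ T →
      ∃ S : Finset ℕ, S ⊆ T ∧ S.card ≤ r + 4 ∧ ∀ t : Fin k → ℕ, Function.Injective t → (∀ l, t l ∈ T \ S) →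
        ∀ a b : Fin k → ℤ, (∀ l, a l ≠ 0 ∨ b l ≠ 0) →
          ∀ (K : IntermediateField ℚ ℂ) [FiniteDimensional ℚ K], finrank ℚ K ≤ D → Complex.I ∈ K →
            ∀ F : MvPolynomial (Fin r ⊕ Fin k × Fin 3) K, (∀ x, F.degreeOf x ≤ δ) →
              MvPolynomial.aeval (Sum.elim w fun s : Fin k × Fin 3 => numbers c (t s.1) (a s.1) (b s.1) s.2) F = 0 →
              ∀ x : Fin k × Fin 3 → ℂ, MvPolynomial.aeval (Sum.elim w x) F = 0 := by
  obtain ⟨G, hG, h1⟩ := Pool.Agent.P8H30.LG.diaz c hc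
  refine ⟨G, hG, fun k r δ D => ?_⟩
  obtain ⟨κ, M₀, hκ, hM₀, h⟩ := h1 k r δ D
  refine ⟨κ, M₀, hκ, hM₀, fun M hM w T hT => ?_⟩
  obtain ⟨S, hST, hS, hSt⟩ := h M hM w T hT.1 hT.2
  refine ⟨S, hST, hS, fun t htinj htS a b hab K _ hK hI F hF hrel x => ?_⟩
  exact Pool.Agent.P8H30.LG.all_of_ne K w F (fun x' hx' => hSt t htinj htS a b hab K hK hI F hF hrel x' hx') x

end Pool.Agent.Results.MP_e21d36_nt.LegendreLattices
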